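import Pool.Agent.Helper75.PY.M12c
import Pool.Agent.Helper75.PX.M6t

set_option autoImplicit false

universe u

open Module TensorProduct

namespace Pool.Agent.Helper75.PY

open Pool.Agent.Helper75.PX

theorem adj2 (hT6 : ST_T6.{u}) (F K : Type u) [Field F] [Field K] [Algebra F K] (a b : K) :
    Algebra.trdeg F (IntermediateField.adjoin F ((∅ ∪ {a}) ∪ {b} : Set K)) ≤ 2 := by
  have h0 : Algebra.trdeg F (IntermediateField.adjoin F (∅ : Set K)) ≤ ((0 : ℕ) : Cardinal) := by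
    rw [IntermediateField.adjoin_empty]
    have : Algebra.IsAlgebraic F (⊥ : IntermediateField F K) := inferInstance
    rw [trdeg_eq_zero]
    exact zero_le
  have h1 := hT6 F K _ a 0 h0
  have h2 := hT6 F K _ b 1 h1
  simpa using h2

/-- degree six in characteristic three -/
theorem m6b3_of (hQ4 : ST_Q4.{u}) (hC3a : ST_C3a.{u}) (hB2 : ST_B2.{u}) (hB3a : ST_B3a.{u})
    (hSC2 : ST_SC2.{u}) (hSC3a : ST_SC3a.{u}) (hCL2 : ST_CL2.{u}) (hCL3a : ST_CL3a.{u})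
    (hDESC : ST_DESC.{u}) (hTCS : ST_TCS.{u}) (hT6 : ST_T6.{u}) (hPD6 : ST_PD6t.{u})
    (hMG3 : ST_MG3.{u}) (hSH3 : ST_SH3.{u})
    (F K A : Type u) [Field F] [Field K] [Infinite K] [Algebra F K]
    [Ring A] [Algebra K A] [Algebra.IsCentral K A] [IsSimpleRing A]
    (h3 : (3 : K) = 0) (hA : finrank K A = 36) :
    ∃ (L : IntermediateField F K) (B : Type u) (_ : Ring B) (_ : Algebra L B),
      Algebra.trdeg F L ≤ 2 ∧ Algebra.IsCentral L B ∧ IsSimpleRing B ∧ finrank L B = 36 ∧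
      Nonempty ((K ⊗[L] B) ≃ₐ[K] A) := by
  have h2 : (2 : K) ≠ 0 := by
    intro h
    have : (1 : K) = 3 - 2 := by norm_num
    rw [h, h3, sub_zero] at this
    exact one_ne_zero this
  obtain ⟨A₂, A₃, _, _, _, _, _, _, _, _, h4, h9, ⟨eA⟩⟩ := hPD6 K A hA
  have : FiniteDimensional K A₂ := FiniteDimensional.of_finrank_pos (by omega)
  have : FiniteDimensional K A₃ := FiniteDimensional.of_finrank_pos (by omega)
  obtain ⟨i₀, j₀, a₀, b₀, hi, hj, hij, ha0, hb0⟩ := hQ4 K A₂ h4 h2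
  have h20 : D2 i₀ j₀ a₀ b₀ := ⟨hi, hj, hij, ha0, hb0⟩
  obtain ⟨X₀, u₀, t₀, c₀, h30⟩ := hC3a K A₃ h9 h3
  obtain ⟨m, x', y', hm, hkey⟩ := hMG3 K a₀ t₀ c₀ h3 ha0 h30.c0
  have h31 := hSH3 K A₃ X₀ u₀ t₀ c₀ x' y' h3 h30
  rw [← hkey] at h31
  have hl : c₀ / b₀ ≠ 0 := div_ne_zero h30.c0 hb0
  set l : K := c₀ / b₀ with hldef
  have hq := hSC2 K A₂ i₀ j₀ a₀ b₀ m (l ^ 2) hm (pow_ne_zero 2 hl) h20
  have h3' := hSC3a K A₃ _ u₀ _ c₀ l hl h31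
  have hc0 : c₀ = l * b₀ := by rw [hldef]; field_simp
  have hc : c₀ * l ^ 3 = b₀ * (l ^ 2) ^ 2 := by rw [hc0]; ring
  rw [hc] at h3'
  clear_value l
  revert hq h3'
  generalize m • i₀ = g
  generalize l ^ 2 • j₀ = k
  generalize l • u₀ = u
  generalize X₀ + x' • u₀ + y' • (1 : A₃) = X
  generalize a₀ * m ^ 2 = a
  generalize b₀ * (l ^ 2) ^ 2 = b
  intro hq h3'
  have htr := adj2 hT6 F K a b
  set L : IntermediateField F K :=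
    IntermediateField.adjoin F ((∅ ∪ {a}) ∪ {b} : Set K) with hL
  have hsub : ((∅ ∪ {a}) ∪ {b} : Set K) ⊆ (L : Set K) :=
    IntermediateField.subset_adjoin F _
  have haL : a ∈ L := hsub (by simp)
  have hbL : b ∈ L := hsub (by simp)
  clear_value L
  obtain ⟨B, iB1, iB2, hB1, hB2, hB3, ⟨hB4⟩⟩ := descTensor hDESC hTCS L _ _ (e2q g k)
    (e3c X u) (hB2 K A₂ g k a b h2 hq) (hB3a K A₃ X u a _ h3 h3')
    (by rw [h4]; simp) (by rw [h9]; simp)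
    (Submodule.subset_span ⟨(0, 0), by simp [e2q]⟩)
    (Submodule.subset_span ⟨(0, 0), by simp [e3c]⟩)
    (hCL2 F K A₂ L g k a b hq haL hbL)
    (hCL3a F K A₃ L X u a _ h3' haL hbL)
  exact ⟨L, B, iB1, iB2, htr, hB1, hB2, by rw [hB3, h4, h9], ⟨hB4.trans eA.symm⟩⟩

/-- degree six in characteristic two -/
theorem m6b2_of (hQ2 : ST_Q2.{u}) (hC3 : ST_C3.{u}) (hB2 : ST_B2c.{u}) (hB3 : ST_B3.{u})
    (hSC2 : ST_SC2c.{u}) (hSC3 : ST_SC3.{u}) (hCL2 : ST_CL2c.{u}) (hCL3 : ST_CL3.{u})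
    (hDESC : ST_DESC.{u}) (hTCS : ST_TCS.{u}) (hT6 : ST_T6.{u}) (hPD6 : ST_PD6t.{u})
    (hMG2 : ST_MG2.{u}) (hSH2 : ST_SH2.{u})
    (F K A : Type u) [Field F] [Field K] [Infinite K] [Algebra F K]
    [Ring A] [Algebra K A] [Algebra.IsCentral K A] [IsSimpleRing A]
    (h2 : (2 : K) = 0) (hF : ∃ ζ : F, ζ ^ 2 + ζ + 1 = 0) (hA : finrank K A = 36) :
    ∃ (L : IntermediateField F K) (B : Type u) (_ : Ring B) (_ : Algebra L B),
      Algebra.trdeg F L ≤ 2 ∧ Algebra.IsCentral L B ∧ IsSimpleRing B ∧ finrank L B = 36 ∧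
      Nonempty ((K ⊗[L] B) ≃ₐ[K] A) := by
  have h3 : (3 : K) ≠ 0 := by
    intro h
    have : (1 : K) = 3 - 2 := by norm_num
    rw [h, h2, sub_zero] at this
    exact one_ne_zero this
  obtain ⟨ζ₀, hζ₀⟩ := hF
  have hζ : (algebraMap F K ζ₀) ^ 2 + algebraMap F K ζ₀ + 1 = 0 := by
    rw [← map_pow, ← map_add, ← map_one (algebraMap F K), ← map_add, hζ₀, map_zero]
  obtain ⟨A₂, A₃, _, _, _, _, _, _, _, _, h4, h9, ⟨eA⟩⟩ := hPD6 K A hA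
  have : FiniteDimensional K A₂ := FiniteDimensional.of_finrank_pos (by omega)
  have : FiniteDimensional K A₃ := FiniteDimensional.of_finrank_pos (by omega)
  obtain ⟨g₀, k₀, a₀, b₀, h20⟩ := hQ2 K A₂ h4 h2
  obtain ⟨i₀, j₀, c₀, d₀, h30⟩ := hC3 K A₃ (algebraMap F K ζ₀) h9 h3 hζ
  obtain ⟨m, x', y', hm, hkey⟩ := hMG2 K a₀ b₀ d₀ h2 h20.b0 h30.d0
  have h21 := hSH2 K A₂ g₀ k₀ a₀ b₀ x' y' h2 h20
  rw [← hkey] at h21
  have hb0 := h20.b0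
  have hl : c₀ / b₀ ≠ 0 := div_ne_zero h30.c0 hb0
  set l : K := c₀ / b₀ with hldef
  have hq := hSC2 K A₂ _ k₀ _ b₀ (l ^ 2) (pow_ne_zero 2 hl) h21
  have h3' := hSC3 K A₃ (algebraMap F K ζ₀) i₀ j₀ c₀ d₀ l m hl hm h30
  have hc0 : c₀ = l * b₀ := by rw [hldef]; field_simp
  have hc : c₀ * l ^ 3 = b₀ * (l ^ 2) ^ 2 := by rw [hc0]; ring
  rw [hc] at h3'
  clear_value l
  revert hq h3'
  generalize l ^ 2 • k₀ = k
  generalize l • i₀ = i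
  generalize m • j₀ = j
  generalize g₀ + x' • k₀ + y' • (1 : A₂) = g
  generalize b₀ * (l ^ 2) ^ 2 = b
  generalize d₀ * m ^ 3 = a
  intro hq h3'
  have htr := adj2 hT6 F K a b
  set L : IntermediateField F K :=
    IntermediateField.adjoin F ((∅ ∪ {a}) ∪ {b} : Set K) with hL
  have hsub : ((∅ ∪ {a}) ∪ {b} : Set K) ⊆ (L : Set K) :=
    IntermediateField.subset_adjoin F _
  have haL : a ∈ L := hsub (by simp)
  have hbL : b ∈ L := hsub (by simp)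
  have hζL : algebraMap F K ζ₀ ∈ L := L.algebraMap_mem ζ₀
  clear_value L
  obtain ⟨B, iB1, iB2, hB1, hB2, hB3, ⟨hB4⟩⟩ := descTensor hDESC hTCS L _ _ (e2q g k)
    (e3 i j) (hB2 K A₂ g k a b h2 hq) (hB3 K A₃ (algebraMap F K ζ₀) i j _ _ h3 hζ h3')
    (by rw [h4]; simp) (by rw [h9]; simp)
    (Submodule.subset_span ⟨(0, 0), by simp [e2q]⟩)
    (Submodule.subset_span ⟨(0, 0), by simp [e3]⟩)
    (hCL2 F K A₂ L g k a b hq haL hbL)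
    (hCL3 F K A₃ L (algebraMap F K ζ₀) i j _ _ h3' hζL hζ hbL haL)
  exact ⟨L, B, iB1, iB2, htr, hB1, hB2, by rw [hB3, h4, h9], ⟨hB4.trans eA.symm⟩⟩

/-- degree six in characteristic two and three -/
theorem m6b_of (hQ4 : ST_Q4.{u}) (hC3a : ST_C3a.{u}) (hB2 : ST_B2.{u}) (hB3a : ST_B3a.{u})
    (hSC2 : ST_SC2.{u}) (hSC3a : ST_SC3a.{u}) (hCL2 : ST_CL2.{u}) (hCL3a : ST_CL3a.{u})
    (hDESC : ST_DESC.{u}) (hTCS : ST_TCS.{u}) (hT6 : ST_T6.{u}) (hPD6 : ST_PD6t.{u})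
    (hMG3 : ST_MG3.{u}) (hSH3 : ST_SH3.{u})
    (hQ2 : ST_Q2.{u}) (hC3 : ST_C3.{u}) (hB2c : ST_B2c.{u}) (hB3 : ST_B3.{u})
    (hSC2c : ST_SC2c.{u}) (hSC3 : ST_SC3.{u}) (hCL2c : ST_CL2c.{u}) (hCL3 : ST_CL3.{u})
    (hMG2 : ST_MG2.{u}) (hSH2 : ST_SH2.{u}) (hFIN : ST_FINK.{u}) : ST_M6b.{u} := by
  intro F K A _ _ _ _ _ _ _ h6F hF hA
  by_cases hfin : Finite K
  · obtain ⟨L, B, iB1, iB2, hB0, hB1, hB2, hB3, hB4⟩ := fink0 hFIN F K A hfin 2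
    exact ⟨L, B, iB1, iB2, hB0, hB1, hB2, by rw [hB3, hA], hB4⟩
  rw [not_finite_iff_infinite] at hfin
  have h6 : (6 : K) = 0 := by
    have := congrArg (algebraMap F K) h6F
    rwa [map_ofNat, map_zero] at this
  have h23 : (2 : K) = 0 ∨ (3 : K) = 0 := by
    apply mul_eq_zero.1
    rw [← h6]
    norm_num
  rcases h23 with h2 | h3
  · exact m6b2_of hQ2 hC3 hB2c hB3 hSC2c hSC3 hCL2c hCL3 hDESC hTCS hT6 hPD6 hMG2 hSH2 F K A
      h2 hF hA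
  · exact m6b3_of hQ4 hC3a hB2 hB3a hSC2 hSC3a hCL2 hCL3a hDESC hTCS hT6 hPD6 hMG3 hSH3 F K A
      h3 hA

end Pool.Agent.Helper75.PY
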