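import Pool.Agent.Helper75.PX.Hand3
import Pool.Agent.Helper75.PY.M6b
import Pool.Agent.Helper39.PX.Q2
import Pool.Agent.Helper4.PX.B2c
import Pool.Agent.Helper81.PX.SC2c
import Pool.Agent.Helper92.PX.CL2c
import Pool.Agent.Helper81.PY.SH2
import Pool.Agent.Helper51.PY.SH3
import Pool.Agent.Helper59.PY.R4N
import Pool.Agent.Helper40.PY.MG2
import Pool.Agent.Helper34.PY.MG3

set_option autoImplicit false

universe u

namespace Pool.Agent.Helper75.PY

open Pool.Agent.Helper75.PX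

/-- primary decomposition in degree six -/
theorem hand_PD6t : ST_PD6t.{u} := by
  have hTCS : ST_TCS.{u} := Pool.Agent.Helper2.PX.st_TCS st_SIMP
  have hWA : ST_WA.{u} := st_WA
  have hTRR : ST_TRR.{u} := hand_TRR
  have hKRO : ST_KRO.{u} := Pool.Agent.Helper2.PX.st_KRO
  have hINDG : ST_INDG.{u} := st_INDG hWA st_DIM st_MCR st_MMM st_MCS
  have hIND2 : ST_IND2t.{u} := st_IND2t hTRR hKRO st_GOLt st_RK2 hINDG hTCS
  have hIND3 : ST_IND3t.{u} := st_IND3t hTRR hKRO st_GOLt st_RK3 hINDG hTCS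
  exact pd6t_of hWA hIND2 hIND3 st_TM1 (st_TM2 st_TM1) st_MMM st_MCS st_UNI
    (st_CAN hWA st_MMM st_UNI) (Pool.Agent.Helper51.PX.st_OPP hTCS) hTCS

/-- degree twelve over every field of characteristic three -/
theorem st_M12c : ST_M12c.{u} := by
  have hTCS : ST_TCS.{u} := Pool.Agent.Helper2.PX.st_TCS st_SIMP
  exact m12c_of hand_C4t hand_C3a (st_B4 st_I4) st_B3a (Pool.Agent.Helper9.PX.st_REL st_I4)
    Pool.Agent.Helper98.PX.st_NZ st_SC4 st_SC3a st_T5 st_CL4 st_CL3a st_DESC hTCS hand_PDAt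
    st_FINK Pool.Agent.Helper59.PY.st_R4N st_MG3 st_SH3

/-- degree six in characteristic two and three -/
theorem st_M6b : ST_M6b.{u} := by
  have hTCS : ST_TCS.{u} := Pool.Agent.Helper2.PX.st_TCS st_SIMP
  have hMPD : ST_MPD.{u} := st_MPD st_SIMP
  have hMDV : ST_MDV.{u} := st_MDV
  exact m6b_of (st_Q4 st_WA hMPD hMDV) hand_C3a st_B2 st_B3a st_SC2 st_SC3a st_CL2 st_CL3a
    st_DESC hTCS st_T6 hand_PD6t st_MG3 st_SH3 (st_Q2 st_WA hMPD hMDV) hand_C3 st_B2c st_B3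
    st_SC2c st_SC3 st_CL2c st_CL3 Pool.Agent.Helper40.PY.st_MG2 st_SH2 st_FINK

end Pool.Agent.Helper75.PY
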