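import Pool.Agent.Helper75.PY.Hand
import Pool.Agent.Helper75.PY.M6c
import Pool.Agent.Helper58.PX.C3d
import Pool.Agent.Helper23.PX.TZ
import Pool.Agent.Helper27.PY.PS2
import Pool.Agent.Helper49.PY.PM2
import Pool.Agent.Helper29.PY.QS2
import Pool.Agent.Helper17.PY.EX2

set_option autoImplicit false

universe u

namespace Pool.Agent.Helper75.PY

open Pool.Agent.Helper75.PX

theorem hand_C3d : ST_C3d.{u} := by
  have hSIMP : ST_SIMP.{u} := st_SIMP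
  have hMPD : ST_MPD.{u} := st_MPD hSIMP
  have hMDV : ST_MDV.{u} := st_MDV
  have hTRZ : ST_TRZ.{u} := st_TRZ
  have hTRM : ST_TRM.{u} := st_TRM hMDV
  have hMIN : ST_MIN.{u} := st_MIN
  have hI3 : ST_I3.{u} := st_I3 hMPD hMDV hTRZ hTRM hMIN
  have hV3 : ST_V3.{u} := st_V3 hMPD hMDV
  have hU3 : ST_U3.{u} := st_U3 hMPD hMDV hTRM hMIN
  have hX3 : ST_X3.{u} := st_X3 hMPD hMDV hTRZ hTRM hMIN hI3 hV3 hU3
  exact st_C3d st_WA hX3 (st_Y3 (st_K3 hMDV hMPD))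

/-- degree six over every field of characteristic two or three -/
theorem m6c_rows (hPS2 : ST_PS2.{u}) (hPM2 : ST_PM2.{u}) (hQS2 : ST_QS2.{u})
    (hEX2 : ST_EX2.{u}) : ST_M6c.{u} := by
  have hTCS : ST_TCS.{u} := Pool.Agent.Helper2.PX.st_TCS st_SIMP
  have hMPD : ST_MPD.{u} := st_MPD st_SIMP
  have hMDV : ST_MDV.{u} := st_MDV
  exact m6c_of (st_Q4 st_WA hMPD hMDV) hand_C3a st_B2 st_B3a st_SC2 st_SC3a st_CL2 st_CL3a
    st_DESC hTCS st_T6 hand_PD6t st_MG3 st_SH3 (st_Q2 st_WA hMPD hMDV) hand_C3 st_B2c st_B3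
    st_SC2c st_SC3 st_CL2c st_CL3 Pool.Agent.Helper40.PY.st_MG2 st_SH2 st_FINK st_TZ
    hand_C3d Pool.Agent.Helper45.PXB.st_B3c st_SC3c st_CL3c hPS2 hPM2 hQS2 hEX2

/-- degree six over every field of characteristic two or three -/
theorem st_M6c : ST_M6c.{u} :=
  m6c_rows Pool.Agent.Helper27.PY.st_PS2 Pool.Agent.Helper49.PY.st_PM2
    Pool.Agent.Helper29.PY.st_QS2 Pool.Agent.Helper17.PY.st_EX2

end Pool.Agent.Helper75.PY
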