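import Pool.Agent.Helper75.PY.Stmts
import Pool.Agent.Helper75.PX.M12t

set_option autoImplicit false

universe u

open Module TensorProduct

namespace Pool.Agent.Helper75.PY

open Pool.Agent.Helper75.PX

/-- finite fields: transcendence degree zero -/
theorem fink0 (hFIN : ST_FINK.{u}) (F K A : Type u) [Field F] [Field K] [Algebra F K]
    [Ring A] [Algebra K A] [Algebra.IsCentral K A] [IsSimpleRing A] (hfin : Finite K)
    (c : Cardinal.{u}) : ∃ (L : IntermediateField F K) (B : Type u) (_ : Ring B) (_ : Algebra L B),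
    Algebra.trdeg F L ≤ c ∧ Algebra.IsCentral L B ∧ IsSimpleRing B ∧
    finrank L B = finrank K A ∧ Nonempty ((K ⊗[L] B) ≃ₐ[K] A) := by
  obtain ⟨L, B, iB1, iB2, hB0, hB1, hB2, hB3, hB4⟩ := hFIN F K A hfin
  have hLf : Finite L := Finite.of_injective (algebraMap L K) (algebraMap L K).injective
  have hLF : Module.Finite F L := Module.Finite.of_finite
  have hal : Algebra.IsAlgebraic F L := Algebra.IsAlgebraic.of_finite F L
  exact ⟨L, B, iB1, iB2, by rw [trdeg_eq_zero]; exact zero_le, hB1, hB2, hB3, hB4⟩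

/-- degree twelve in characteristic three -/
theorem m12c_of (hC4 : ST_C4t.{u}) (hC3a : ST_C3a.{u}) (hB4 : ST_B4.{u})
    (hB3a : ST_B3a.{u}) (hREL : ST_REL.{u}) (hNZ : ST_NZ.{u}) (hSC4 : ST_SC4.{u})
    (hSC3a : ST_SC3a.{u}) (hT5 : ST_T5.{u}) (hCL4 : ST_CL4.{u})
    (hCL3a : ST_CL3a.{u}) (hDESC : ST_DESC.{u}) (hTCS : ST_TCS.{u}) (hPDA : ST_PDAt.{u})
    (hFIN : ST_FINK.{u}) (hR4N : ST_R4N.{u}) (hMG3 : ST_MG3.{u}) (hSH3 : ST_SH3.{u}) :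
    ST_M12c.{u} := by
  intro F K A _ _ _ _ _ _ _ h3F hA
  have h3 : (3 : K) = 0 := by
    have := congrArg (algebraMap F K) h3F
    rwa [map_ofNat, map_zero] at this
  have h2 : (2 : K) ≠ 0 := by
    intro h
    have : (1 : K) = 3 - 2 := by norm_num
    rw [h, h3, sub_zero] at this
    exact one_ne_zero this
  by_cases hfin : Finite K
  · obtain ⟨L, B, iB1, iB2, hB0, hB1, hB2, hB3, hB4⟩ := fink0 hFIN F K A hfin 5
    exact ⟨L, B, iB1, iB2, hB0, hB1, hB2, by rw [hB3, hA], hB4⟩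
  rw [not_finite_iff_infinite] at hfin
  have hk : ∃ k : K, k ≠ 0 ∧ k ≠ 1 ∧ k ≠ -1 := by
    classical
    obtain ⟨k, hk⟩ := Infinite.exists_notMem_finset ({0, 1, -1} : Finset K)
    simp only [Finset.mem_insert, Finset.mem_singleton, not_or] at hk
    exact ⟨k, hk⟩
  obtain ⟨A₄, A₃, _, _, _, _, _, _, _, _, h16, h9, ⟨eA⟩⟩ := hPDA K A hA
  have : FiniteDimensional K A₄ := FiniteDimensional.of_finrank_pos (by omega)
  have : FiniteDimensional K A₃ := FiniteDimensional.of_finrank_pos (by omega)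
  obtain ⟨α₁, β₁, z₁, w₁, a₁, b₁, p₁, r₁, v₁, h41⟩ := hC4 K A₄ h16 h2 hk
  obtain ⟨α₀, β₀, z₀, w₀, a₀, b₀, p₀, r₀, v₀, h40, hr0⟩ :=
    hR4N K A₄ α₁ β₁ z₁ w₁ a₁ b₁ p₁ r₁ v₁ h2 h41
  obtain ⟨hN1, hN2⟩ := hNZ K A₄ α₀ β₀ z₀ w₀ a₀ b₀ p₀ r₀ v₀ h2 h40
  obtain ⟨X₀, u₀, t₀, c₀, h30⟩ := hC3a K A₃ h9 h3
  obtain ⟨m, x', y', hm, hkey⟩ := hMG3 K r₀ t₀ c₀ h3 hr0 h30.c0
  have h31 := hSH3 K A₃ X₀ u₀ t₀ c₀ x' y' h3 h30
  rw [← hkey] at h31
  have hl : c₀ / (p₀ ^ 2 - b₀) ≠ 0 := div_ne_zero h30.c0 hN1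
  set l : K := c₀ / (p₀ ^ 2 - b₀) with hldef
  have h4 := hSC4 K A₄ α₀ β₀ z₀ w₀ a₀ b₀ p₀ r₀ v₀ l m hl hm h40
  have h3' := hSC3a K A₃ _ u₀ _ c₀ l hl h31
  have hc0 : c₀ = l * (p₀ ^ 2 - b₀) := by rw [hldef]; field_simp
  have hc : c₀ * l ^ 3 = (l ^ 2 * p₀) ^ 2 - l ^ 4 * b₀ := by rw [hc0]; ring
  rw [hc, mul_comm r₀ (m ^ 2)] at h3'
  clear_value l
  revert h4 h3'
  generalize m ^ 2 • α₀ = α
  generalize l ^ 2 • β₀ = β
  generalize l • z₀ = z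
  generalize m • w₀ = w
  generalize l • u₀ = u
  generalize X₀ + x' • u₀ + y' • (1 : A₃) = X
  generalize m ^ 4 * a₀ = a
  generalize l ^ 4 * b₀ = b
  generalize l ^ 2 * p₀ = p
  generalize m ^ 2 * r₀ = r
  generalize ![v₀ 0, v₀ 1 / m ^ 2, v₀ 2 / l ^ 2, v₀ 3 / (l ^ 2 * m ^ 2)] = v
  intro h4 h3'
  have hrel := hREL K A₄ α β z w a b p r v h2 h4
  obtain ⟨hM1, hM2⟩ := hNZ K A₄ α β z w a b p r v h2 h4
  have htr := hT5 F K a b p r v h2 h4.a0 h4.b0 hM1 hM2 hrel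
  set L : IntermediateField F K :=
    IntermediateField.adjoin F (({a, b, p, r} : Set K) ∪ Set.range v) with hL
  have hsub : (({a, b, p, r} : Set K) ∪ Set.range v) ⊆ (L : Set K) :=
    IntermediateField.subset_adjoin F _
  have haL : a ∈ L := hsub (Or.inl (by simp))
  have hbL : b ∈ L := hsub (Or.inl (by simp))
  have hpL : p ∈ L := hsub (Or.inl (by simp))
  have hrL : r ∈ L := hsub (Or.inl (by simp))
  have hvL : ∀ k, v k ∈ L := fun k => hsub (Or.inr ⟨k, rfl⟩)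
  have hcL : p ^ 2 - b ∈ L := L.sub_mem (pow_mem hpL 2) hbL
  clear_value L
  obtain ⟨B, iB1, iB2, hB1, hB2, hB3, ⟨hB4⟩⟩ := descTensor hDESC hTCS L _ _ (e4 α β z w)
    (e3c X u) (hB4 K A₄ α β z w a b p r v h2 h4) (hB3a K A₃ X u r _ h3 h3')
    (by rw [h16]; simp) (by rw [h9]; simp)
    (Submodule.subset_span ⟨(0, 0, 0, 0), by simp [e4]⟩)
    (Submodule.subset_span ⟨(0, 0), by simp [e3c]⟩)
    (hCL4 F K A₄ L α β z w a b p r v h4 haL hbL hpL hrL hvL)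
    (hCL3a F K A₃ L X u r _ h3' hrL hcL)
  exact ⟨L, B, iB1, iB2, htr, hB1, hB2, by rw [hB3, h16, h9],
    ⟨hB4.trans eA.symm⟩⟩

end Pool.Agent.Helper75.PY
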