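import Pool.Agent.Helper75.PX.Stmts6

set_option autoImplicit false

universe u

open Module TensorProduct

namespace Pool.Agent.Helper75.PY

open Pool.Agent.Helper75.PX

/-- matching an additive class with a cubic class, characteristic two -/
def ST_MG2 : Prop := ∀ (K : Type u) [Field K] [Infinite K] (a b d : K), (2 : K) = 0 → b ≠ 0 →
  d ≠ 0 → ∃ g x y : K, g ≠ 0 ∧ d * g ^ 3 = a + y ^ 2 + y + b * x ^ 2

/-- matching an additive class with a square class, characteristic three -/
def ST_MG3 : Prop := ∀ (K : Type u) [Field K] [Infinite K] (a c d : K), (3 : K) = 0 → a ≠ 0 →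
  d ≠ 0 → ∃ k x y : K, k ≠ 0 ∧ a * k ^ 2 = c + y ^ 3 - y + d * x ^ 3

/-- change of the Artin-Schreier generator, characteristic two -/
def ST_SH2 : Prop := ∀ (K A : Type u) [Field K] [Ring A] [Algebra K A] (i j : A) (a b x y : K),
  (2 : K) = 0 → D2c i j a b → D2c (i + x • j + y • (1 : A)) j (a + y ^ 2 + y + b * x ^ 2) b

/-- change of the Artin-Schreier generator, characteristic three -/
def ST_SH3 : Prop := ∀ (K A : Type u) [Field K] [Ring A] [Algebra K A] (X j : A) (a c x y : K),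
  (3 : K) = 0 → D3a X j a c → D3a (X + x • j + y • (1 : A)) j (a + y ^ 3 - y + c * x ^ 3) c

/-- generators in degree four with `r ≠ 0` -/
def ST_R4N : Prop := ∀ (K A : Type u) [Field K] [Infinite K] [Ring A] [Algebra K A]
  (α β z w : A) (a b p r : K) (v : Fin 4 → K), (2 : K) ≠ 0 → D4 α β z w a b p r v →
  ∃ (α' β' z' w' : A) (a' b' p' r' : K) (v' : Fin 4 → K),
    D4 α' β' z' w' a' b' p' r' v' ∧ r' ≠ 0

/-- degree twelve in characteristic three -/
def ST_M12c : Prop := ∀ (F K A : Type u) [Field F] [Field K] [Algebra F K]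
  [Ring A] [Algebra K A] [Algebra.IsCentral K A] [IsSimpleRing A],
  (3 : F) = 0 → finrank K A = 144 →
  ∃ (L : IntermediateField F K) (B : Type u) (_ : Ring B) (_ : Algebra L B),
    Algebra.trdeg F L ≤ 5 ∧ Algebra.IsCentral L B ∧ IsSimpleRing B ∧ finrank L B = 144 ∧
    Nonempty ((K ⊗[L] B) ≃ₐ[K] A)

/-- degree six in characteristic two and three -/
def ST_M6b : Prop := ∀ (F K A : Type u) [Field F] [Field K] [Algebra F K]
  [Ring A] [Algebra K A] [Algebra.IsCentral K A] [IsSimpleRing A],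
  (6 : F) = 0 → (∃ ζ : F, ζ ^ 2 + ζ + 1 = 0) → finrank K A = 36 →
  ∃ (L : IntermediateField F K) (B : Type u) (_ : Ring B) (_ : Algebra L B),
    Algebra.trdeg F L ≤ 2 ∧ Algebra.IsCentral L B ∧ IsSimpleRing B ∧ finrank L B = 36 ∧
    Nonempty ((K ⊗[L] B) ≃ₐ[K] A)

end Pool.Agent.Helper75.PY
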