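import Pool.Agent.Helper75.PY.Stmts

set_option autoImplicit false

universe u

open Module TensorProduct

namespace Pool.Agent.Helper75.PY

open Pool.Agent.Helper75.PX

/-- the parameter of a cyclic cubic algebra may be squared, characteristic two -/
def ST_PS2 : Prop := ∀ (K A : Type u) [Field K] [Ring A] [Algebra K A] (y u : A) (t c : K),
  (2 : K) = 0 → D3c y u t c → D3c (y * y) u (t ^ 2) c

/-- the parameter of a cyclic cubic algebra moves by a fractional transformation of the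
generator, characteristic two -/
def ST_PM2 : Prop := ∀ (K A : Type u) [Field K] [Ring A] [Algebra K A] (y u : A) (t c r : K),
  (2 : K) = 0 → r ^ 3 + (t + 1) * r ^ 2 + t * r + 1 ≠ 0 → D3c y u t c →
  D3c (r • (1 : A) + ((r ^ 2 + r + 1) / (r ^ 3 + (t + 1) * r ^ 2 + t * r + 1)) •
      (y * y + (r + 1 + t) • y + (r ^ 2 + t * r) • (1 : A))) u
    (t + (t ^ 2 + t + 1) * (r ^ 2 + r) / (r ^ 3 + (t + 1) * r ^ 2 + t * r + 1)) c

/-- the second slot of a quaternion algebra, characteristic two -/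
def ST_QS2 : Prop := ∀ (K A : Type u) [Field K] [Ring A] [Algebra K A] (i j : A)
  (a b x₀ x₁ : K), (2 : K) = 0 → x₁ ≠ 0 → x₀ ^ 2 + b * x₁ ^ 2 ≠ 0 → D2c i j a b →
  D2c (i + (x₀ / (x₁ * b)) • (j * i)) (x₀ • (1 : A) + x₁ • j)
    (a * (x₀ ^ 2 + b * x₁ ^ 2) / (b * x₁ ^ 2)) (x₀ ^ 2 + b * x₁ ^ 2)

/-- a parameter which is a value of the second slot -/
def ST_EX2 : Prop := ∀ (K : Type u) [Field K] [Infinite K] (t b : K), (2 : K) = 0 →
  (∀ ζ : K, ζ ^ 2 + ζ + 1 ≠ 0) → b ≠ 0 →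
  ∃ r x₀ x₁ : K, r ^ 3 + (t ^ 2 + 1) * r ^ 2 + t ^ 2 * r + 1 ≠ 0 ∧ x₁ ≠ 0 ∧
    x₀ ^ 2 + b * x₁ ^ 2 ≠ 0 ∧
    t ^ 2 + ((t ^ 2) ^ 2 + t ^ 2 + 1) * (r ^ 2 + r) /
      (r ^ 3 + (t ^ 2 + 1) * r ^ 2 + t ^ 2 * r + 1) = x₀ ^ 2 + b * x₁ ^ 2

/-- degree six in characteristic two and three, every field -/
def ST_M6c : Prop := ∀ (F K A : Type u) [Field F] [Field K] [Algebra F K]
  [Ring A] [Algebra K A] [Algebra.IsCentral K A] [IsSimpleRing A],
  (6 : F) = 0 → finrank K A = 36 →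
  ∃ (L : IntermediateField F K) (B : Type u) (_ : Ring B) (_ : Algebra L B),
    Algebra.trdeg F L ≤ 2 ∧ Algebra.IsCentral L B ∧ IsSimpleRing B ∧ finrank L B = 36 ∧
    Nonempty ((K ⊗[L] B) ≃ₐ[K] A)

end Pool.Agent.Helper75.PY
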